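import Pool.Agent.Lib.MP_2194ec_nt.GAL.H98.E
import Pool.Agent.Lib.MP_2194ec_nt.GAL.Defs4

set_option autoImplicit false
set_option linter.unusedSectionVars false

/-!
# The end of the proof for sets of conjugates: Galois extensions
-/

namespace Pool.DynLehmer.GAL.H28
open NumberField Filter Topology Pool.DynLehmer Pool.DynLehmer.GAL Pool.DynLehmer.GAL.H98
open scoped Classical

/-- The counting argument for a set of elements. -/
theorem end_num2 {Γ : Type*} [Fintype Γ] [Nonempty Γ] (n : Γ → ℕ) (q : ℕ) (hq : 2 ≤ q)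
    (Dj : ℕ → ℝ) (hD1 : ∀ j, 1 ≤ Dj j) (D t y C g : ℝ) (hD0 : 0 < D) (ht : 0 ≤ t)
    (hC : 0 ≤ C) (hg : 0 ≤ g)
    (hD : ∀ j, D ≤ (q : ℝ) ^ j * Dj j) (hY : ∀ h, (q : ℝ) ^ n h * y ^ 2 ≤ t * D)
    (hcard : ∀ j, ((Finset.univ.filter fun h => n h = j).card : ℝ) * Dj j ≤
      C * g * √(Dj j)) : (Fintype.card Γ : ℝ) * y ≤ 4 * C * g * √t := by
  classical
  have hq0 : (0 : ℝ) < q := by exact_mod_cast (by omega : 0 < q)
  set s : ℝ := √q with hs
  have hs0 : 0 < s := Real.sqrt_pos.2 hq0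
  have hs2 : s ^ 2 = q := Real.sq_sqrt hq0.le
  have hs43 : 4 / 3 ≤ s := by
    rw [hs]
    refine Real.le_sqrt_of_sq_le ?_
    have : (2 : ℝ) ≤ q := by exact_mod_cast hq
    linarith
  have hsD0 : 0 < √D := Real.sqrt_pos.2 hD0
  -- each level
  have h1 : ∀ j, ((Finset.univ.filter fun h => n h = j).card : ℝ) * √D ≤ C * g * s ^ j := by
    intro j
    have hd0 : 0 < Dj j := zero_lt_one.trans_le (hD1 j)
    have hsd : √(Dj j) ^ 2 = Dj j := Real.sq_sqrt hd0.le
    have hsd0 : 0 < √(Dj j) := Real.sqrt_pos.2 hd0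
    set c : ℝ := ((Finset.univ.filter fun h => n h = j).card : ℝ) with hc
    have hc0 : 0 ≤ c := Nat.cast_nonneg _
    have e1 : c * √(Dj j) ≤ C * g := by
      have h2 := hcard j
      have h3 : (c * √(Dj j)) * √(Dj j) ≤ (C * g) * √(Dj j) := by
        calc (c * √(Dj j)) * √(Dj j) = c * √(Dj j) ^ 2 := by ring
          _ = c * Dj j := by rw [hsd]
          _ ≤ (C * g) * √(Dj j) := h2
      exact le_of_mul_le_mul_right h3 hsd0
    have e2 : √D ≤ s ^ j * √(Dj j) := by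
      have h2 : s ^ j * √(Dj j) = √((q : ℝ) ^ j * Dj j) := by
        rw [Real.sqrt_mul (pow_nonneg hq0.le j)]
        congr 1
        rw [← hs2, ← pow_mul, mul_comm 2 j, pow_mul, Real.sqrt_sq (pow_nonneg hs0.le j)]
      rw [h2]
      exact Real.sqrt_le_sqrt (hD j)
    calc c * √D ≤ c * (s ^ j * √(Dj j)) := mul_le_mul_of_nonneg_left e2 hc0
      _ = (c * √(Dj j)) * s ^ j := by ring
      _ ≤ (C * g) * s ^ j := mul_le_mul_of_nonneg_right e1 (pow_nonneg hs0.le j)
  -- the largest level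
  obtain ⟨h₀, _, hmax⟩ := Finset.exists_max_image (Finset.univ : Finset Γ) n Finset.univ_nonempty
  set J := n h₀ with hJ
  have h2 : (Fintype.card Γ) = ∑ j ∈ Finset.range (J + 1),
      (Finset.univ.filter fun h => n h = j).card := by
    rw [← Finset.card_univ]
    exact Finset.card_eq_sum_card_fiberwise fun h _ => Finset.mem_coe.2
      (Finset.mem_range.2 (Nat.lt_succ_iff.2 (hmax h (Finset.mem_univ h))))
  have h3 : (Fintype.card Γ : ℝ) * √D ≤ C * g * (4 * s ^ J) := by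
    calc (Fintype.card Γ : ℝ) * √D = ∑ j ∈ Finset.range (J + 1),
          ((Finset.univ.filter fun h => n h = j).card : ℝ) * √D := by
          rw [h2, Nat.cast_sum, Finset.sum_mul]
      _ ≤ ∑ j ∈ Finset.range (J + 1), C * g * s ^ j := Finset.sum_le_sum fun j _ => h1 j
      _ = C * g * ∑ j ∈ Finset.range (J + 1), s ^ j := by rw [Finset.mul_sum]
      _ ≤ C * g * (4 * s ^ J) := mul_le_mul_of_nonneg_left (geom4 hs43 J) (mul_nonneg hC hg)
  have h4 : s ^ J * y ≤ √t * √D := by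
    rw [← Real.sqrt_mul ht]
    refine Real.le_sqrt_of_sq_le ?_
    have h5 := hY h₀
    calc (s ^ J * y) ^ 2 = (s ^ 2) ^ J * y ^ 2 := by ring
      _ = (q : ℝ) ^ J * y ^ 2 := by rw [hs2]
      _ ≤ t * D := h5
  rcases le_or_gt 0 y with hy | hy
  · have h5 : ((Fintype.card Γ : ℝ) * y) * √D ≤ (4 * C * g * √t) * √D := by
      calc ((Fintype.card Γ : ℝ) * y) * √D = ((Fintype.card Γ : ℝ) * √D) * y := by ring
        _ ≤ (C * g * (4 * s ^ J)) * y := mul_le_mul_of_nonneg_right h3 hy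
        _ = (4 * C * g) * (s ^ J * y) := by ring
        _ ≤ (4 * C * g) * (√t * √D) := mul_le_mul_of_nonneg_left h4 (by positivity)
        _ = (4 * C * g * √t) * √D := by ring
    exact le_of_mul_le_mul_right h5 hsD0
  · have h5 : (Fintype.card Γ : ℝ) * y ≤ 0 :=
      mul_nonpos_of_nonneg_of_nonpos (Nat.cast_nonneg _) hy.le
    exact h5.trans (by positivity)

section gal

variable {K N : Type} [Field K] [Field N] [Algebra K N] [FiniteDimensional K N]

/-- The number of conjugates is the degree. -/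
theorem card_conj_eq [IsGalois K N] (x : N) :
    (conj K x).card = Module.finrank K (IntermediateField.adjoin K {x}) := by
  have h1 := card_conj_mul (K := K) x
  rw [card_st, ← Nat.card_eq_fintype_card, IsGalois.card_aut_eq_finrank,
    ← Module.finrank_mul_finrank K (IntermediateField.adjoin K {x}) N] at h1
  exact Nat.eq_of_mul_eq_mul_right Module.finrank_pos h1

/-- The number of conjugates of a pair is the degree. -/
theorem idx_pt_eq [IsGalois K N] (x y : N) : idx (⊤ : Subgroup (N ≃ₐ[K] N)) (pt x y) =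
    Module.finrank K (IntermediateField.adjoin K {x, y}) := by
  have hst : ∀ σ : N ≃ₐ[K] N, σ ∈ stab (K := K) (pt x y) ↔ σ x = x ∧ σ y = y := by
    intro σ
    rw [mem_stab]
    constructor
    · rintro ⟨c, _, h⟩
      have h2 : σ 1 = c * 1 := congrFun h 2
      have h3 : σ x = c * x := congrFun h 0
      have h4 : σ y = c * y := congrFun h 1
      rw [map_one, mul_one] at h2
      rw [← h2, one_mul] at h3 h4
      exact ⟨h3, h4⟩
    · rintro ⟨h1, h2⟩
      refine ⟨1, one_ne_zero, ?_⟩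
      rw [one_smul]
      funext i
      fin_cases i
      · exact h1
      · exact h2
      · exact map_one σ
  have hc : Nat.card (stab (K := K) (pt x y)) =
      Module.finrank (IntermediateField.adjoin K {x, y}) N := by
    rw [← IsGalois.card_fixingSubgroup_eq_finrank]
    refine Nat.card_congr (Equiv.subtypeEquivRight fun σ => ?_)
    rw [hst, IntermediateField.mem_fixingSubgroup_iff]
    constructor
    · rintro ⟨h1, h2⟩ z hz
      have h3 : IntermediateField.adjoin K {x, y} ≤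
          IntermediateField.fixedField (Subgroup.zpowers σ) := by
        rw [IntermediateField.adjoin_le_iff]
        rintro w hw
        rw [Set.mem_insert_iff, Set.mem_singleton_iff] at hw
        rintro ⟨τ, n, rfl⟩
        show (σ ^ n) w = w
        rcases hw with rfl | rfl
        · exact (st K w).zpow_mem (show σ ∈ st K w from h1) n
        · exact (st K w).zpow_mem (show σ ∈ st K w from h2) n
      exact h3 hz ⟨σ, Subgroup.mem_zpowers σ⟩
    · intro h
      exact ⟨h x (IntermediateField.subset_adjoin K _ (Set.mem_insert _ _)),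
        h y (IntermediateField.subset_adjoin K _
          (Set.mem_insert_of_mem _ (Set.mem_singleton _)))⟩
  have h4 := card_mul_idx (⊤ : Subgroup (N ≃ₐ[K] N)) (pt x y)
  rw [card_fin, card_fin, top_inf_eq, hc,
    Nat.card_congr (Subgroup.topEquiv (G := N ≃ₐ[K] N)).toEquiv,
    IsGalois.card_aut_eq_finrank,
    ← Module.finrank_mul_finrank K (IntermediateField.adjoin K {x, y}) N, mul_comm] at h4
  exact Nat.eq_of_mul_eq_mul_right Module.finrank_pos h4

/-- The number of automorphisms which map `x` to a given set of conjugates. -/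
theorem card_set (x : N) (S : Finset N) (hS : ∀ b ∈ S, ∃ σ : N ≃ₐ[K] N, σ x = b) :
    Fintype.card {σ : N ≃ₐ[K] N // σ x ∈ S} * (conj K x).card =
      S.card * Fintype.card (N ≃ₐ[K] N) := by
  obtain ⟨h1, h2⟩ := fib (fun σ : N ≃ₐ[K] N => σ x) (st K x) (fun σ τ => eq_iff x σ τ)
  have h3 : Fintype.card {σ : N ≃ₐ[K] N // σ x ∈ S} = S.card * Nat.card (st K x) := by
    rw [Fintype.card_subtype,
      Finset.card_eq_sum_card_fiberwise (t := S) (f := fun σ : N ≃ₐ[K] N => σ x)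
        (fun σ hσ => Finset.mem_coe.2 (Finset.mem_filter.1 (Finset.mem_coe.1 hσ)).2)]
    rw [Finset.sum_congr rfl (g := fun _ => Nat.card (st K x)), Finset.sum_const, smul_eq_mul]
    intro b hb
    obtain ⟨σ, hσ⟩ := hS b hb
    rw [← h1 b (Finset.mem_image.2 ⟨σ, Finset.mem_univ _, hσ⟩)]
    congr 1
    ext τ
    rw [Finset.mem_filter, Finset.mem_filter, Finset.mem_filter]
    constructor
    · rintro ⟨⟨h4, _⟩, h5⟩
      exact ⟨h4, h5⟩
    · rintro ⟨h4, h5⟩
      exact ⟨⟨h4, show τ x ∈ S by rw [h5]; exact hb⟩, h5⟩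
  rw [h3, ← card_conj_mul (K := K) x]
  ring

end gal

/-- The end of the proof for sets of conjugates in a Galois extension. -/
theorem e_set (hA : AStatement) (hB : BStatement) (hC : CStatement) (hCh : ChStatement)
    (hDD : DStatement) (hDf : DfStatement)
    (K : Type) [Field K] [NumberField K] (p s : ℕ) (v : FinitePlace K) (f : Polynomial K)
    (hyp : Hyp p s v f) (ε : ℝ) (hε : 0 < ε) :
    ∃ c : ℝ, 0 < c ∧ ∀ (N : Type) [Field N] [NumberField N] [Algebra K N] [IsGalois K N] (a : N),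
      Wand f a → ∀ (t : ℕ) (S : Finset N), S.Nonempty →
      (∀ b ∈ S, (∃ σ : N ≃ₐ[K] N, σ a = b) ∧
        Module.finrank K (IntermediateField.adjoin K {a, b}) ≤
          t * Module.finrank K (IntermediateField.adjoin K {a})) →
      ∃ h : ℝ, Tendsto (fun n : ℕ => Height.logHeight ![(fm f N)^[n] a, 1] /
        (Module.finrank ℚ N : ℝ) / ((p ^ s : ℕ) : ℝ) ^ n) atTop (𝓝 h) ∧
        c / ((t : ℝ) * (Module.finrank K (IntermediateField.adjoin K {a}) : ℝ) *
          ((t : ℝ) * (Module.finrank K (IntermediateField.adjoin K {a}) : ℝ) /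
            (S.card : ℝ)) ^ ε) ≤ h := by
  have hp2 : 2 ≤ p := hyp.prime.two_le
  have hq2 : 2 ≤ p ^ s := by
    calc 2 ≤ p := hp2
      _ = p ^ 1 := (pow_one p).symm
      _ ≤ p ^ s := Nat.pow_le_pow_right (by omega) hyp.pos
  obtain ⟨CB, nB, hB'⟩ := hB K (p ^ s) f hq2 hyp.monic hyp.deg hyp.ne
  obtain ⟨F, hF1, hF2, hF3, hF4, hF5⟩ := hC K p s v f hyp
  set η : ℝ := min (ε / 4) (1 / (4 * ((nB : ℝ) + 1))) with hη
  have hn0 : (0 : ℝ) < 4 * ((nB : ℝ) + 1) := by positivity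
  have hη0 : 0 < η := lt_min (by linarith) (by positivity)
  have hηε : 4 * η ≤ ε := by
    have := min_le_left (ε / 4) (1 / (4 * ((nB : ℝ) + 1)))
    linarith
  have hηn : η * (4 * ((nB : ℝ) + 1)) ≤ 1 := by
    have h1 := min_le_right (ε / 4) (1 / (4 * ((nB : ℝ) + 1)))
    rw [← hη, le_div_iff₀ hn0] at h1
    exact h1
  have hη4 : η ≤ 1 / 4 := by
    have h1 : (0 : ℝ) ≤ nB := Nat.cast_nonneg nB
    nlinarith
  obtain ⟨c, hc, hA'⟩ := hA K p s (Fin 3) v (by simp) hyp.prime hyp.pos hyp.above F hF1 hF2 hF3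
    hF4 η hη0 (by linarith)
  set C₄ : ℝ := CB * 2 ^ (nB + 2) with hC₄
  have hC₄0 : 0 ≤ C₄ := by positivity
  set A₀ : ℝ := (4 * C₄ + 1) ^ 4 with hA₀
  have hA₀1 : 1 ≤ A₀ := one_le_pow₀ (by linarith)
  have hA₀0 : 0 < A₀ := by linarith
  refine ⟨c / 2 * A₀ ^ (-η), by positivity, ?_⟩
  intro N _ _ _ _ a ha t S hSne hS
  have hfd : FiniteDimensional K N := inferInstance
  -- the numbers
  set g : ℝ := (Fintype.card (N ≃ₐ[K] N) : ℝ) with hg
  have hg0 : 0 < g := by
    rw [hg]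
    exact_mod_cast Fintype.card_pos
  set D : ℝ := (Module.finrank K (IntermediateField.adjoin K {a}) : ℝ) with hD
  have hDc : ((conj K a).card : ℝ) = D := by rw [card_conj_eq]
  have hD1 : 1 ≤ D := by
    rw [← hDc]
    exact_mod_cast card_conj_pos a
  have hD0 : 0 < D := by linarith
  set R : ℝ := (S.card : ℝ) with hR
  have hR1 : 1 ≤ R := by
    rw [hR]
    exact_mod_cast Finset.card_pos.2 hSne
  have hR0 : 0 < R := by linarith
  have hRD : R ≤ D := by
    rw [← hDc, hR]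
    have h1 : S ⊆ conj K a := by
      intro b hb
      obtain ⟨σ, hσ⟩ := (hS b hb).1
      exact Finset.mem_image.2 ⟨σ, Finset.mem_univ _, hσ⟩
    exact_mod_cast Finset.card_le_card h1
  have ht1 : (1 : ℝ) ≤ t := by
    obtain ⟨b, hb⟩ := hSne
    have h1 := (hS b hb).2
    have h2 : 0 < Module.finrank K (IntermediateField.adjoin K {a, b}) := Module.finrank_pos
    have h3 : 1 ≤ t := by
      rcases Nat.eq_zero_or_pos t with h0 | h0
      · rw [h0, zero_mul] at h1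
        omega
      · exact h0
    exact_mod_cast h3
  have ht0 : (0 : ℝ) < t := by linarith
  set ρ : ℝ := D / R with hρ
  have hρ1 : 1 ≤ ρ := by
    rw [hρ, le_div_iff₀ hR0]
    linarith
  have hρ0 : 0 < ρ := by linarith
  set Y : ℝ := A₀ * ((t : ℝ) ^ 2 * ρ ^ 4) with hY
  have hY0' : 1 ≤ (t : ℝ) ^ 2 * ρ ^ 4 :=
    one_le_mul_of_one_le_of_one_le (one_le_pow₀ ht1) (one_le_pow₀ hρ1)
  have hY1 : 1 ≤ Y := one_le_mul_of_one_le_of_one_le hA₀1 hY0'
  -- the points
  have hpt0 : ∀ σ : N ≃ₐ[K] N, pt a (σ a) ≠ 0 := by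
    intro σ h0
    have h1 : (1 : N) = 0 := congrFun h0 2
    exact one_ne_zero h1
  have hwand : ∀ σ : N ≃ₐ[K] N, ¬ ∃ m n : ℕ, m ≠ n ∧ ∃ c : N, c ≠ 0 ∧
      (gAct F N)^[n] (pt a (σ a)) = c • (gAct F N)^[m] (pt a (σ a)) := by
    rintro σ ⟨m, n, hmn, c, _, h⟩
    rw [gAct_pt hF5, gAct_pt hF5] at h
    have h1 : (1 : N) = c * 1 := congrFun h 2
    have h2 : (fm f N)^[n] a = c * (fm f N)^[m] a := congrFun h 0
    rw [mul_one] at h1
    rw [← h1, one_mul] at h2
    exact hmn (ha n m h2).symm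
  have hwA : ∀ n : ℕ, Wand f ((fm f N)^[n] a) := by
    intro n i j hij
    rw [← Function.iterate_add_apply, ← Function.iterate_add_apply] at hij
    have := ha _ _ hij
    omega
  have hwS : ∀ (σ : N ≃ₐ[K] N) (n : ℕ), Wand f ((fm f N)^[n] (σ a)) := by
    intro σ n i j hij
    rw [← Function.iterate_add_apply, ← Function.iterate_add_apply, fm_conj, fm_conj] at hij
    have := ha _ _ (σ.injective hij)
    omega
  -- the canonical height
  obtain ⟨hf, hlim, _⟩ := hA' Y hY1 N (pt a ((1 : N ≃ₐ[K] N) a)) (hpt0 1) (hwand 1)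
  have hlim' : Tendsto (fun n : ℕ => Height.logHeight ![(fm f N)^[n] a, 1] /
      (Module.finrank ℚ N : ℝ) / ((p ^ s : ℕ) : ℝ) ^ n) atTop (𝓝 hf) := by
    refine hlim.congr fun n => ?_
    rw [gAct_pt hF5]
    have : (fm f N)^[n] ((1 : N ≃ₐ[K] N) a) = (fm f N)^[n] a := rfl
    rw [this, height_pt_self]
  refine ⟨hf, hlim', ?_⟩
  have hheight : ∀ (σ : N ≃ₐ[K] N) (h : ℝ), Tendsto (fun n : ℕ =>
      Height.logHeight ((gAct F N)^[n] (pt a (σ a))) /
      (Module.finrank ℚ N : ℝ) / ((p ^ s : ℕ) : ℝ) ^ n) atTop (𝓝 h) → h ≤ 2 * hf := by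
    intro σ h hh
    refine le_of_tendsto_of_tendsto' hh (hlim'.const_mul 2) fun n => ?_
    rw [gAct_pt hF5]
    have h1 := hCh N ((fm f N)^[n] a) ((fm f N)^[n] (σ a))
    rw [fm_conj, height_conj] at h1
    have h2 : (0 : ℝ) ≤ (Module.finrank ℚ N : ℝ) := Nat.cast_nonneg _
    have h3 : (0 : ℝ) ≤ ((p ^ s : ℕ) : ℝ) ^ n := by positivity
    rw [fm_conj, mul_div_assoc', mul_div_assoc']
    refine div_le_div_of_nonneg_right (div_le_div_of_nonneg_right ?_ h2) h3
    linarith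
  have hidx : ∀ σ : N ≃ₐ[K] N, σ a ∈ S →
      (idx (⊤ : Subgroup (N ≃ₐ[K] N)) (pt a (σ a)) : ℝ) ≤ t * D := by
    intro σ hσ
    rw [idx_pt_eq, hD]
    exact_mod_cast (hS _ hσ).2
  -- one of the points satisfies the bound
  by_contra hlt
  push Not at hlt
  have hno : ∀ (σ : {σ : N ≃ₐ[K] N // σ a ∈ S}), ∃ (n e : ℕ) (X : ℝ), 1 ≤ X ∧ Y ≤ X ∧
      (e : ℝ) ≤ X ^ η ∧
      ((p ^ s : ℕ) : ℝ) ^ n * X ^ (1 - η) ≤ idx (⊤ : Subgroup (N ≃ₐ[K] N)) (pt a (σ.1 a)) ∧
      X ^ (1 - η) ≤ idx (⊤ : Subgroup (N ≃ₐ[K] N)) ((gAct F N)^[n] (pt a (σ.1 a))) ∧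
      OnPer F ((gAct F N)^[n] (pt a (σ.1 a))) e := by
    rintro ⟨σ, hσS⟩
    obtain ⟨h, hh, h1⟩ := hA' Y hY1 N (pt a (σ a)) (hpt0 σ) (hwand σ)
    rcases h1 with h1 | h1
    · exfalso
      have h2 := hheight σ h hh
      have hYη : 0 < Y ^ (-η) := Real.rpow_pos_of_pos (by linarith) _
      have hhpos : 0 < h := by
        by_contra hneg
        push Not at hneg
        have h4 : (idx (⊤ : Subgroup (N ≃ₐ[K] N)) (pt a (σ a)) : ℝ) * h ≤ 0 :=
          mul_nonpos_of_nonneg_of_nonpos (Nat.cast_nonneg _) hneg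
        have h5 : 0 < c * Y ^ (-η) := mul_pos hc hYη
        linarith
      have h3 : c * Y ^ (-η) ≤ (t * D) * (2 * hf) := by
        calc c * Y ^ (-η) ≤ (idx (⊤ : Subgroup (N ≃ₐ[K] N)) (pt a (σ a)) : ℝ) * h := h1
          _ ≤ (t * D) * h := mul_le_mul_of_nonneg_right (hidx σ hσS) hhpos.le
          _ ≤ (t * D) * (2 * hf) := mul_le_mul_of_nonneg_left h2 (by positivity)
      have hm0 : 0 < (t : ℝ) * D / R := by positivity
      have h4 : A₀ ^ (-η) * ((t : ℝ) * D / R) ^ (-ε) ≤ Y ^ (-η) := by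
        rw [hY, Real.mul_rpow hA₀0.le (by positivity)]
        refine mul_le_mul_of_nonneg_left ?_ (Real.rpow_nonneg hA₀0.le _)
        have e1 : (t : ℝ) * D / R = t * ρ := by rw [hρ, mul_div_assoc]
        have e2 : (t : ℝ) ^ 2 * ρ ^ 4 ≤ (t * ρ) ^ 4 := by
          have h5 : (t : ℝ) ^ 2 ≤ (t : ℝ) ^ 4 := pow_le_pow_right₀ ht1 (by norm_num)
          calc (t : ℝ) ^ 2 * ρ ^ 4 ≤ (t : ℝ) ^ 4 * ρ ^ 4 :=
                mul_le_mul_of_nonneg_right h5 (by positivity)
            _ = (t * ρ) ^ 4 := by ring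
        have e3 : 1 ≤ t * ρ := one_le_mul_of_one_le_of_one_le ht1 hρ1
        rw [e1]
        calc ((t : ℝ) * ρ) ^ (-ε) ≤ (t * ρ) ^ (4 * -η) :=
              Real.rpow_le_rpow_of_exponent_le e3 (by linarith)
          _ = ((t * ρ) ^ 4) ^ (-η) := by
              rw [Real.rpow_mul (by positivity)]
              congr 1
              exact_mod_cast Real.rpow_natCast ((t : ℝ) * ρ) 4
          _ ≤ ((t : ℝ) ^ 2 * ρ ^ 4) ^ (-η) :=
              Real.rpow_le_rpow_of_nonpos (by positivity) e2 (by linarith)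
      have h5 : c / 2 * A₀ ^ (-η) ≤ hf * ((t * D) * ((t : ℝ) * D / R) ^ ε) := by
        have h6 : ((t : ℝ) * D / R) ^ (-ε) * ((t : ℝ) * D / R) ^ ε = 1 := by
          rw [← Real.rpow_add hm0, neg_add_cancel, Real.rpow_zero]
        have hme : 0 < ((t : ℝ) * D / R) ^ ε := Real.rpow_pos_of_pos hm0 _
        have h7 : c * (A₀ ^ (-η) * ((t : ℝ) * D / R) ^ (-ε)) ≤ (t * D) * (2 * hf) :=
          (mul_le_mul_of_nonneg_left h4 hc.le).trans h3
        have h8 : c * (A₀ ^ (-η) * ((t : ℝ) * D / R) ^ (-ε)) * ((t : ℝ) * D / R) ^ ε ≤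
            (t * D) * (2 * hf) * ((t : ℝ) * D / R) ^ ε :=
          mul_le_mul_of_nonneg_right h7 hme.le
        have h9 : c * (A₀ ^ (-η) * ((t : ℝ) * D / R) ^ (-ε)) * ((t : ℝ) * D / R) ^ ε =
            c * A₀ ^ (-η) := by
          calc c * (A₀ ^ (-η) * ((t : ℝ) * D / R) ^ (-ε)) * ((t : ℝ) * D / R) ^ ε
              = c * A₀ ^ (-η) * (((t : ℝ) * D / R) ^ (-ε) * ((t : ℝ) * D / R) ^ ε) := by ring
            _ = c * A₀ ^ (-η) := by rw [h6, mul_one]
        rw [h9] at h8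
        linarith
      have h6 : c / 2 * A₀ ^ (-η) / ((t * D) * ((t : ℝ) * D / R) ^ ε) ≤ hf := by
        rw [div_le_iff₀ (mul_pos (by positivity) (Real.rpow_pos_of_pos hm0 _))]
        exact h5
      linarith
    · exact h1
  choose n e X hX1 hXY he hi1 hi2 hper using hno
  have hDj1 : ∀ j, (1 : ℝ) ≤ ((conj K ((fm f N)^[j] a)).card : ℝ) := by
    intro j
    exact_mod_cast card_conj_pos _
  -- the periodic polynomials
  have hG : ∀ σ : {σ : N ≃ₐ[K] N // σ a ∈ S}, ∃ G, PerPol f (2 * e σ) G ∧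
      ev2 ((fm f N)^[n σ] a) (σ.1 ((fm f N)^[n σ] a)) G = 0 := by
    intro σ
    have h1 := hper σ
    rw [gAct_pt hF5] at h1
    obtain ⟨G, hG, hG'⟩ := hDD K f F hF5 N _ _ (e σ) (hwA (n σ)) (hwS σ.1 (n σ)) h1
    rw [fm_conj] at hG'
    exact ⟨G, hG, hG'⟩
  have heD : ∀ σ : {σ : N ≃ₐ[K] N // σ a ∈ S}, (e σ : ℝ) ≤
      (2 * ((conj K ((fm f N)^[n σ] a)).card : ℝ)) ^ (2 * η) := by
    intro σ
    obtain ⟨G, hG, hG'⟩ := hG σ
    refine e_le hη0 hη4 (hX1 σ) (hDj1 _) (he σ) ((hi2 σ).trans ?_)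
    rw [gAct_pt hF5, fm_conj]
    have h1 := idx_pt_le ((fm f N)^[n σ] a) (σ.1 ((fm f N)^[n σ] a)) G (2 * e σ) hG.degY
      (fun b => hDf K G hG.irr hG.posY N b) hG'
    exact_mod_cast h1
  have hne : Nonempty {σ : N ≃ₐ[K] N // σ a ∈ S} := by
    obtain ⟨b, hb⟩ := hSne
    obtain ⟨σ, hσ⟩ := (hS b hb).1
    exact ⟨⟨σ, by rw [hσ]; exact hb⟩⟩
  have key := end_num2 n (p ^ s) hq2 (fun j => ((conj K ((fm f N)^[j] a)).card : ℝ)) hDj1 D t
    ((4 * C₄ + 1) * √t * ρ) C₄ g hD0 ht0.le hC₄0 hg0.le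
    (by
      intro j
      have h1 := conj_le f (q := p ^ s) (by omega) hyp.deg a j
      rw [← hDc]
      exact_mod_cast h1)
    (by
      intro σ
      have h1 : ((4 * C₄ + 1) * √t * ρ) ^ 2 ≤ X σ ^ (1 - η) := by
        have h2 : ((4 * C₄ + 1) * √t * ρ) ^ 2 = Y ^ (1 / 2 : ℝ) := by
          rw [← Real.sqrt_eq_rpow, hY, hA₀, mul_pow, mul_pow, Real.sq_sqrt ht0.le]
          refine ((Real.sqrt_eq_iff_mul_self_eq (by positivity) (by positivity)).2 ?_).symm
          ring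
        rw [h2]
        calc Y ^ (1 / 2 : ℝ) ≤ X σ ^ (1 / 2 : ℝ) :=
              Real.rpow_le_rpow (by linarith) (hXY σ) (by norm_num)
          _ ≤ X σ ^ (1 - η) := Real.rpow_le_rpow_of_exponent_le (hX1 σ) (by linarith)
      calc ((p ^ s : ℕ) : ℝ) ^ n σ * ((4 * C₄ + 1) * √t * ρ) ^ 2
          ≤ ((p ^ s : ℕ) : ℝ) ^ n σ * X σ ^ (1 - η) :=
            mul_le_mul_of_nonneg_left h1 (by positivity)
        _ ≤ t * D := (hi1 σ).trans (hidx σ.1 σ.2))
    (by
      intro j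
      set Dj : ℝ := ((conj K ((fm f N)^[j] a)).card : ℝ) with hDj
      have hDj1 : 1 ≤ Dj := hDj1 j
      set E : ℕ := ⌊(2 * Dj) ^ (2 * η)⌋₊ with hE
      have hE1 : (E : ℝ) ≤ (2 * Dj) ^ (2 * η) :=
        Nat.floor_le (Real.rpow_nonneg (by linarith) _)
      obtain ⟨T, hT, hT'⟩ := hB' (2 * E)
      have h1 := count_le hDf f (2 * E) (CB * (2 * E) ^ nB) T hT hT' ((fm f N)^[j] a)
      have h2 : (Finset.univ.filter fun σ => n σ = j).card ≤
          (Finset.univ.filter fun h : N ≃ₐ[K] N => ∃ G, PerPol f (2 * E) G ∧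
            ev2 ((fm f N)^[j] a) (h ((fm f N)^[j] a)) G = 0).card := by
        refine Finset.card_le_card_of_injOn (fun σ => σ.1) ?_
          (fun σ _ τ _ h => Subtype.ext h)
        intro σ hσ
        have hσ' : n σ = j := (Finset.mem_filter.1 (Finset.mem_coe.1 hσ)).2
        refine Finset.mem_coe.2 (Finset.mem_filter.2 ⟨Finset.mem_univ _, ?_⟩)
        obtain ⟨G, hG, hG'⟩ := hG σ
        have h3 := heD σ
        rw [hσ'] at hG' h3
        exact ⟨G, PerPol.mono (Nat.mul_le_mul_left 2 (Nat.le_floor h3)) hG, hG'⟩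
      have h3 : ((Finset.univ.filter fun σ => n σ = j).card : ℝ) * Dj ≤
          ((CB * (2 * E) ^ nB * (2 * E) * Fintype.card (N ≃ₐ[K] N) : ℕ) : ℝ) := by
        have h4 := (Nat.mul_le_mul_right (conj K ((fm f N)^[j] a)).card h2).trans h1
        rw [hDj]
        exact_mod_cast h4
      have h5 := lev_num hDj1 hηn hE1
      have h6 : ((CB * (2 * E) ^ nB * (2 * E) * Fintype.card (N ≃ₐ[K] N) : ℕ) : ℝ) =
          CB * g * (((2 * E : ℕ) : ℝ)) ^ (nB + 1) := by
        rw [hg]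
        push_cast
        ring
      rw [h6] at h3
      refine h3.trans ?_
      calc CB * g * (((2 * E : ℕ) : ℝ)) ^ (nB + 1) ≤ CB * g * (2 ^ (nB + 2) * √Dj) :=
            mul_le_mul_of_nonneg_left h5 (by positivity)
        _ = C₄ * g * √Dj := by
            rw [hC₄]
            ring)
  have hcs : (Fintype.card {σ : N ≃ₐ[K] N // σ a ∈ S} : ℝ) * D = R * g := by
    have h1 := card_set a S fun b hb => (hS b hb).1
    rw [← hDc, hR, hg]
    exact_mod_cast h1
  have hst : 0 < √(t : ℝ) := Real.sqrt_pos.2 ht0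
  have h7 : (Fintype.card {σ : N ≃ₐ[K] N // σ a ∈ S} : ℝ) * ((4 * C₄ + 1) * √t * ρ) =
      (4 * C₄ + 1) * √t * g := by
    calc (Fintype.card {σ : N ≃ₐ[K] N // σ a ∈ S} : ℝ) * ((4 * C₄ + 1) * √t * ρ)
        = (Fintype.card {σ : N ≃ₐ[K] N // σ a ∈ S} : ℝ) * D / R * ((4 * C₄ + 1) * √t) := by
          rw [hρ]
          ring
      _ = (4 * C₄ + 1) * √t * g := by
          rw [hcs, mul_div_assoc, mul_comm R, div_mul_cancel₀ g hR0.ne']
          ring
  rw [h7] at key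
  have h8 : 0 < √(t : ℝ) * g := mul_pos hst hg0
  nlinarith

end Pool.DynLehmer.GAL.H28
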