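import Pool.Agent.Lib.MP_2194ec_nt.GAL.H28.E2

set_option autoImplicit false
set_option linter.unusedSectionVars false

/-!
# The end of the proof for sets of conjugates: all extensions
-/

namespace Pool.DynLehmer.GAL.H28
open NumberField Filter Topology Pool.DynLehmer Pool.DynLehmer.GAL Pool.DynLehmer.GAL.H98
open scoped Classical

theorem fm_hom {K : Type} [Field K] (f : Polynomial K) {L N : Type} [Field L] [Algebra K L]
    [Field N] [Algebra K N] (φ : L →ₐ[K] N) (n : ℕ) (x : L) :
    (fm f N)^[n] (φ x) = φ ((fm f L)^[n] x) := by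
  rw [← H78.fm_iter, ← H78.fm_iter]
  exact Polynomial.aeval_algHom_apply φ x (itp f n)

theorem finrank_adjoin_hom {K : Type} [Field K] {L N : Type} [Field L] [Algebra K L]
    [Field N] [Algebra K N] (φ : L →ₐ[K] N) (A : Set L) :
    Module.finrank K (IntermediateField.adjoin K (φ '' A)) =
      Module.finrank K (IntermediateField.adjoin K A) := by
  rw [← IntermediateField.adjoin_map]
  exact (IntermediateField.equivMap (IntermediateField.adjoin K A) φ).toLinearEquiv.finrank_eq.symm

/-- The end of the proof for sets of conjugates. -/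
theorem eSet : ESetStatement := by
  intro hA hB hC hCh hDD hDf K _ _ p s v f hyp ε hε
  obtain ⟨c, hc, hmain⟩ := e_set hA hB hC hCh hDD hDf K p s v f hyp ε hε
  refine ⟨c, hc, ?_⟩
  intro L _ _ _ a ha t S hSne hS
  -- the Galois closure
  let N := IntermediateField.normalClosure K L (AlgebraicClosure L)
  have hfdKL : FiniteDimensional K L := Module.Finite.of_restrictScalars_finite ℚ K L
  have hfd : FiniteDimensional K N := normalClosure.is_finiteDimensional K L (AlgebraicClosure L)
  have hNnf : NumberField N := NumberField.of_module_finite K N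
  have hnormal : Normal K N := normalClosure.normal K L (AlgebraicClosure L)
  have hgal : IsGalois K N := ⟨⟩
  let φ : L →ₐ[K] N := IsScalarTower.toAlgHom K L N
  have hφ : Function.Injective φ := φ.toRingHom.injective
  have hw : Wand f (φ a) := by
    intro m n hmn
    rw [fm_hom, fm_hom] at hmn
    exact ha m n (hφ hmn)
  have h1 : Module.finrank K (IntermediateField.adjoin K {φ a}) =
      Module.finrank K (IntermediateField.adjoin K {a}) := by
    rw [← finrank_adjoin_hom φ {a}, Set.image_singleton]
  obtain ⟨h, hlim, hle⟩ := hmain N (φ a) hw t (S.image φ) (hSne.image φ) (by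
    intro b hb
    obtain ⟨b', hb', rfl⟩ := Finset.mem_image.1 hb
    obtain ⟨h2, h3⟩ := hS b' hb'
    constructor
    · have h4 : minpoly K (φ a) = minpoly K a := minpoly.algHom_eq φ hφ a
      refine minpoly.exists_algEquiv_of_root' (Algebra.IsAlgebraic.isAlgebraic (φ a)) ?_
      rw [h4, Polynomial.aeval_algHom_apply, h2, map_zero]
    · rw [h1, ← Set.image_pair, finrank_adjoin_hom]
      exact h3)
  refine ⟨h, hlim.congr fun n => ?_, ?_⟩
  · have h2 : (![(fm f N)^[n] (φ a), 1] : Fin 2 → N) =
        fun i => (φ : L →+* N) ((![(fm f L)^[n] a, 1] : Fin 2 → L) i) := by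
      rw [fm_hom]
      funext i
      fin_cases i
      · rfl
      · exact (map_one φ).symm
    rw [h2, logHeight_hom (φ : L →+* N)]
  · rw [h1, Finset.card_image_of_injective S hφ] at hle
    exact hle

end Pool.DynLehmer.GAL.H28
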