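import Mathlib
import Pool.Agent.Lib.MP_2194ec_nt.GAL.BDefs
import Pool.Agent.Lib.MP_524519_ag.DU5.PC.NP
import Pool.Agent.Lib.MP_524519_ag.DU5.PC.WFC

set_option autoImplicit false

/-!
# Row SPL: polynomials over the field of Laurent series split over Hahn series
-/

namespace Pool.DynLehmer.GAL.H28
open Polynomial Pool.Agent.DU5 Pool.Agent.DU5.PC
open scoped Classical

/-- division of the exponents by `n` -/
noncomputable def psi (F : Type) [Field F] (n : ℕ) (hn : n ≠ 0) :
    HahnSeries ℤ F →+* HahnSeries ℚ F :=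
  HahnSeries.embDomainRingHom
    ((AddMonoidHom.mulLeft ((n : ℚ)⁻¹)).comp (Int.castAddHom ℚ))
    (by
      intro a b h
      have hn' : ((n : ℚ)⁻¹) ≠ 0 := inv_ne_zero (by exact_mod_cast hn)
      have h1 : (n : ℚ)⁻¹ * (a : ℚ) = (n : ℚ)⁻¹ * (b : ℚ) := h
      exact_mod_cast mul_left_cancel₀ hn' h1)
    (by
      intro a b
      have hn' : 0 < ((n : ℚ)⁻¹) := by positivity
      show (n : ℚ)⁻¹ * (a : ℚ) ≤ (n : ℚ)⁻¹ * (b : ℚ) ↔ a ≤ b
      rw [mul_le_mul_iff_right₀ hn']
      exact Int.cast_le)

lemma psi_coeff (F : Type) [Field F] (n : ℕ) (hn : n ≠ 0) (g : HahnSeries ℤ F) (k : ℤ) :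
    (psi F n hn g).coeff ((n : ℚ)⁻¹ * k) = g.coeff k :=
  HahnSeries.embDomain_coeff

lemma psi_coeff_of_not (F : Type) [Field F] (n : ℕ) (hn : n ≠ 0) (g : HahnSeries ℤ F) (r : ℚ)
    (hr : ∀ k : ℤ, (n : ℚ)⁻¹ * k ≠ r) : (psi F n hn g).coeff r = 0 := by
  apply HahnSeries.embDomain_of_notMem_range
  rintro ⟨k, hk⟩
  exact hr k hk

lemma emb_coeff (F : Type) [Field F] (g : LaurentSeries F) (k : ℤ) :
    (emb F g).coeff (k : ℚ) = g.coeff k :=
  HahnSeries.embDomain_coeff

lemma emb_coeff_of_not (F : Type) [Field F] (g : LaurentSeries F) (r : ℚ)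
    (hr : ∀ k : ℤ, (k : ℚ) ≠ r) : (emb F g).coeff r = 0 := by
  apply HahnSeries.embDomain_of_notMem_range
  rintro ⟨k, hk⟩
  exact hr k hk

lemma psi_ex (F : Type) [Field F] (n : ℕ) (hn : n ≠ 0) (g : PowerSeries F) :
    psi F n hn (algebraMap (PowerSeries F) (LaurentSeries F) (PC.ex F n hn g)) =
      emb F (algebraMap (PowerSeries F) (LaurentSeries F) g) := by
  have hn' : (n : ℚ) ≠ 0 := by exact_mod_cast hn
  ext r
  by_cases hr : ∃ k : ℤ, (n : ℚ)⁻¹ * k = r
  · obtain ⟨k, rfl⟩ := hr
    rw [psi_coeff]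
    have h0 : (algebraMap (PowerSeries F) (LaurentSeries F) (PC.ex F n hn g)).coeff k =
        if k < 0 then 0 else PowerSeries.coeff k.natAbs (PC.ex F n hn g) := PowerSeries.coeff_coe _ k
    rw [h0]
    by_cases hk : k < 0
    · rw [if_pos hk]
      by_cases hj : ∃ j : ℤ, (j : ℚ) = (n : ℚ)⁻¹ * k
      · obtain ⟨j, hj⟩ := hj
        rw [← hj, emb_coeff]
        have h1 : j < 0 := by
          have h2 : (j : ℚ) < 0 := by
            rw [hj]
            have h3 : (k : ℚ) < 0 := by exact_mod_cast hk
            have h4 : 0 < (n : ℚ)⁻¹ := by positivity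
            nlinarith
          exact_mod_cast h2
        have h2 : (algebraMap (PowerSeries F) (LaurentSeries F) g).coeff j =
          if j < 0 then 0 else PowerSeries.coeff j.natAbs g := PowerSeries.coeff_coe _ j
        rw [h2, if_pos h1]
      · rw [emb_coeff_of_not]
        intro j hj'
        exact hj ⟨j, hj'⟩
    · rw [if_neg hk]
      have h1 : PowerSeries.coeff k.natAbs (PC.ex F n hn g) =
          if n ∣ k.natAbs then PowerSeries.coeff (k.natAbs / n) g else 0 := by
        unfold PC.ex
        exact PowerSeries.coeff_expand n hn g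
      rw [h1]
      by_cases hd : n ∣ k.natAbs
      · rw [if_pos hd]
        obtain ⟨j, hj⟩ := hd
        have hk0 : k = (n : ℤ) * (j : ℤ) := by
          have h2 : (k.natAbs : ℤ) = k := Int.natAbs_of_nonneg (by omega)
          rw [← h2, hj]; push_cast; ring
        have h3 : (n : ℚ)⁻¹ * (k : ℚ) = ((j : ℤ) : ℚ) := by
          rw [hk0]; push_cast; field_simp
        rw [h3, emb_coeff]
        have h2 : (algebraMap (PowerSeries F) (LaurentSeries F) g).coeff (j : ℤ) =
          if (j : ℤ) < 0 then 0 else PowerSeries.coeff (j : ℤ).natAbs g :=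
            PowerSeries.coeff_coe _ (j : ℤ)
        rw [h2, if_neg (by omega), hj, Nat.mul_div_cancel_left _ (Nat.pos_of_ne_zero hn)]
        simp
      · rw [if_neg hd]
        rw [emb_coeff_of_not]
        intro j hj
        apply hd
        have h2 : (k : ℚ) = (n : ℚ) * j := by rw [hj]; field_simp
        have h3 : k = (n : ℤ) * j := by exact_mod_cast h2
        rw [h3, Int.natAbs_mul, Int.natAbs_natCast]
        exact dvd_mul_right _ _
  · have hr' : ∀ k : ℤ, (n : ℚ)⁻¹ * k ≠ r := fun k hk => hr ⟨k, hk⟩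
    rw [psi_coeff_of_not F n hn _ r hr', emb_coeff_of_not]
    intro k hk
    apply hr
    refine ⟨(n : ℤ) * k, ?_⟩
    rw [← hk]; push_cast; field_simp

theorem good_of_closed (F : Type) [Field F] [IsAlgClosed F] [CharZero F] (d : ℕ) : Good F d :=
  ⟨by exact_mod_cast d.factorial_ne_zero, fun q _ _ => IsAlgClosed.splits q⟩

/-- Row SPL. -/
theorem spl : SplStatement := by
  intro F _ _ _ P
  by_cases hP0 : P = 0
  · rw [hP0, Polynomial.map_zero]; exact Splits.zero
  -- monic case suffices
  have key : ∀ P : (LaurentSeries F)[X], P.Monic → (P.map (emb F)).Splits := by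
    intro P hP
    obtain ⟨b, hb⟩ := IsLocalization.exist_integer_multiples_of_finset
      (Submonoid.powers (PowerSeries.X : PowerSeries F)) (S := LaurentSeries F)
      (P.support.image P.coeff)
    obtain ⟨N, hN⟩ := b.2
    set u : LaurentSeries F := algebraMap (PowerSeries F) (LaurentSeries F) (b : PowerSeries F)
      with hu
    have hu0 : u ≠ 0 := by
      rw [hu, ← hN]
      intro h0
      have h1 := (IsFractionRing.injective (PowerSeries F) (LaurentSeries F)) (h0.trans
        (map_zero _).symm)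
      exact (pow_ne_zero N PowerSeries.X_ne_zero) h1
    have hcoef : ∀ i, u * P.coeff i ∈ (algebraMap (PowerSeries F) (LaurentSeries F)).range := by
      intro i
      by_cases hi : i ∈ P.support
      · obtain ⟨a, ha⟩ := hb (P.coeff i) (Finset.mem_image_of_mem _ hi)
        refine ⟨a, ?_⟩
        rw [ha, Algebra.smul_def]
      · rw [notMem_support_iff.1 hi, mul_zero]
        exact ⟨0, map_zero _⟩
    have hlift : P.scaleRoots u ∈ Polynomial.lifts (algebraMap (PowerSeries F)
        (LaurentSeries F)) := by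
      rw [Polynomial.lifts_iff_coeff_lifts]
      intro i
      rw [coeff_scaleRoots]
      rcases lt_trichotomy i P.natDegree with hi | hi | hi
      · obtain ⟨a, ha⟩ := hcoef i
        refine ⟨a * (b : PowerSeries F) ^ (P.natDegree - i - 1), ?_⟩
        rw [map_mul, map_pow, ha, ← hu, mul_comm u, mul_assoc, ← pow_succ']
        congr 2
        omega
      · refine ⟨1, ?_⟩
        rw [hi, Nat.sub_self, pow_zero, mul_one, map_one]
        exact hP.symm
      · rw [coeff_eq_zero_of_natDegree_lt hi, zero_mul]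
        exact ⟨0, map_zero _⟩
    have hmon : (P.scaleRoots u).Monic := (monic_scaleRoots_iff u).2 hP
    obtain ⟨Q, hQ1, hQ2, hQ3⟩ := lifts_and_degree_eq_and_monic hlift hmon
    obtain ⟨η, hη⟩ := np wfc F Q.natDegree (good_of_closed F _) Q hQ3 rfl
      (PC.rootExp Q.natDegree) (by
        unfold PC.rootExp
        exact Finset.prod_ne_zero_iff.2 fun i _ => Nat.factorial_ne_zero _) dvd_rfl
    have h1 : ((P.scaleRoots u).map (emb F)).Splits := by
      have h2 : (P.scaleRoots u).map (emb F) = (Q.map (PC.ex F (PC.rootExp Q.natDegree) (by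
        unfold PC.rootExp
        exact Finset.prod_ne_zero_iff.2 fun i _ => Nat.factorial_ne_zero _))).map
          ((psi F (PC.rootExp Q.natDegree) (by
        unfold PC.rootExp
        exact Finset.prod_ne_zero_iff.2 fun i _ => Nat.factorial_ne_zero _)).comp
          (algebraMap (PowerSeries F) (LaurentSeries F))) := by
        rw [← hQ1, Polynomial.map_map, Polynomial.map_map]
        congr 1
        refine RingHom.ext fun g => ?_
        exact (psi_ex F _ _ g).symm
      rw [h2, hη, Polynomial.map_prod]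
      refine Splits.prod fun i _ => ?_
      rw [Polynomial.map_sub, Polynomial.map_X, Polynomial.map_C]
      exact Splits.X_sub_C _
    have h3 : (P.scaleRoots u).map (emb F) = (P.map (emb F)).scaleRoots (emb F u) := by
      apply map_scaleRoots
      rw [hP.leadingCoeff, map_one]
      exact one_ne_zero
    rw [h3] at h1
    have hu1 : emb F u ≠ 0 := by
      intro h0
      exact hu0 ((emb F).injective (h0.trans (map_zero _).symm))
    have h4 := h1.scaleRoots (emb F u)⁻¹
    rw [← scaleRoots_mul, mul_inv_cancel₀ hu1, scaleRoots_one] at h4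
    exact h4
  have h5 := key (C P.leadingCoeff⁻¹ * P) (monic_C_mul_of_mul_leadingCoeff_eq_one
    (inv_mul_cancel₀ (leadingCoeff_ne_zero.2 hP0)))
  have h6 : P.map (emb F) = C (emb F P.leadingCoeff) * (C P.leadingCoeff⁻¹ * P).map (emb F) := by
    rw [Polynomial.map_mul, Polynomial.map_C, ← mul_assoc, ← C_mul, ← map_mul,
      mul_inv_cancel₀ (leadingCoeff_ne_zero.2 hP0), map_one, map_one, one_mul]
  rw [h6]
  exact (Splits.C _).mul h5

end Pool.DynLehmer.GAL.H28
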